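import Pool.Agent.Helper3.SG.Frm

/-! FULLNESS OF THE FACTOR over the labels `kappa_c` of the big system, from `ST` in the dimension of the factor. -/

set_option autoImplicit false

namespace Pool.Agent.Helper3.SG

open Finset Filter Topology Matrix Pool.Agent.Helper69.RK Pool.Agent.Helper31.EC Pool.Agent.Helper40.EL
open Pool.Agent.Helper31.EC.Sp
open Pool.Agent.Helper95.LF Pool.Agent.Helper3.LF Pool.Agent.Helper48.NS Pool.Agent.Helper89.LX
open Pool.Agent.Helper3.PR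
open Pool.Agent.Helper3.ZM (aff afs afm phi_afm gam_afm afm_symm afm_nonneg GG_gain VV_ext cellv_pj' triv_DM h_kap
  cel cel_bdd cl_cel celW cel_nul celL rvol_eq st_lvol)
open Pool.Agent.Helper59.EV (rvol ST)
open Pool.Agent.Helper59.LF (ladd fadd DM_ladd fadd_info_ge)

noncomputable section

variable {S : Sp} {m r q D : ℕ} {g : Sys S r} {s : Sys S m}

theorem celL_DMf (hF : Fac g s) {c : ℝ} (h0 : 0 ≤ c) (h1 : c ≤ 1) {l : Lab S} (hl : DMc g c l) :
    DMc g c (celL s c h0 l) := by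
  apply DM_ladd hl
  · apply cel_nul h0 l (A := Inf.sup (Inf.sup (g.Ia 1) (g.Ix 1)) (g.It c))
    rw [cl_A]
    refine (sup_le le_sup_right (P_le_A s h1)).trans (hF.A c)
  · apply cel_nul h0 l (A := Inf.sup (g.IP 1) (g.It 1))
    rw [cl_B]
    exact (sup_le (t_le_B s h1) (P_le_B s h1)).trans hF.B

theorem celL_kapf (hF : Fac g s) {c : ℝ} (h0 : 0 ≤ c) (h1 : c ≤ 1) {l : Lab S} (hl : IsKap g c l) :
    IsKap g c (celL s c h0 l) := by
  apply isKap_of_info (celL_DMf hF h0 h1 hl.dm)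
  rw [← hl.info_eq]
  have u1 := Lab.DM.ub hl.dm (cA_Bd g c)
  have u2 := Lab.DM.ub (celL_DMf hF h0 h1 hl.dm) (cA_Bd g c)
  refine le_of_tendsto_of_tendsto (ul_tendsto u1) (ul_tendsto u2) (Eventually.of_forall fun k => ?_)
  exact div_le_div_of_nonneg_right (fadd_info_ge (l k) (celW s c h0 l k)) (S.F k).pos.le

/-- the data of a zoom of a factor -/
def mkf (hF : Fac g s) {c : ℝ} (h0 : 0 ≤ c) (h1 : c < 1) {l : Lab S} (hl : DMc g c l) : ZF g s where
  l := celL s c h0 l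
  c := c
  h0 := h0
  h1 := h1
  fac := hF
  dm := celL_DMf hF h0 h1.le hl
  cell := fun k ω ω' _ _ hV _ => by
    have h2 : (l k).V ω ω' ∧ Pool.Agent.Helper3.ZM.cel s c h0 k ((l k).p.π ω) = Pool.Agent.Helper3.ZM.cel s c h0 k ((l k).p.π ω') := hV
    have h3 := h2.2
    unfold Pool.Agent.Helper3.ZM.cel at h3
    rw [Prod.mk.injEq] at h3
    exact h3

theorem rvol_canP {c : ℝ} {x : ∀ k, FD (S.F k) (Mon (m + 1) D)} (hx : IsCanP g s D c x) :
    rvol s D x = m - lvolP g s D c / 2 := by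
  rw [rvol_eq s hx.1.1, lvolP_eq g s hx.1]

/-- `ST` FOR A FACTOR OVER THE WINDOWS OF THE BIG SYSTEM, in terms of `lvolP` -/
theorem fac_lvol (hF : Fac g s) (hD : 1 ≤ D) (hst : ST D m) {c : ℝ} (h0 : 0 ≤ c) (h1 : c < 1) {l : Lab S}
    (hl : IsKap g c l) : m - lvolP g s D c / 2 ≤ h (up1 l (s.P.dg 1)) (up1 l s.T) := by
  set Z := mkf hF h0 h1 hl.dm with hZ
  have hk : IsKap g c Z.l := celL_kapf hF h0 h1.le hl
  have h2 := Z.lvol_zoom hD
  have h3 := st_lvol hst Z.sys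
  rw [Z.h_P, h_kap hk hl] at h3
  have e1 : Z.e = 1 - c := rfl
  have e2 : Z.c = c := rfl
  rw [e1, e2] at h2
  rw [e1] at h3
  have h4 : 0 < 1 - c := by linarith
  rw [le_div_iff₀ h4] at h3
  linarith

/-- **FULLNESS OF THE FACTOR**: over the labels `kappa_c` of the big system the points of the factor fill the regular
volume of the canonical form of the factor -/
theorem fac_st (hF : Fac g s) (hD : 1 ≤ D) (hst : ST D m) {c : ℝ} (h0 : 0 ≤ c) (h1 : c < 1)
    {x : ∀ k, FD (S.F k) (Mon (m + 1) D)} (hx : IsCanP g s D c x) {l : Lab S} (hl : IsKap g c l) :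
    rvol s D x ≤ h (up1 l (s.P.dg 1)) (up1 l s.T) := by
  rw [rvol_canP hx]
  exact fac_lvol hF hD hst h0 h1 hl

end

end Pool.Agent.Helper3.SG
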