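import Pool.Agent.Helper3.LF.Eta
import Pool.Agent.Helper3.PR.Prj

/-! Factors of systems (projections), and forms on the space of the factor carried by labels of the windows of the big
system: `HfP s s' D c sg`. -/

set_option autoImplicit false

namespace Pool.Agent.Helper3.SG

open Finset Filter Topology Matrix Pool.Agent.Helper69.RK Pool.Agent.Helper31.EC Pool.Agent.Helper40.EL
open Pool.Agent.Helper31.EC.Sp
open Pool.Agent.Helper95.LF Pool.Agent.Helper3.LF Pool.Agent.Helper48.NS Pool.Agent.Helper89.LX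
open Pool.Agent.Helper3.PR

noncomputable section

variable {S : Sp} {m q D : ℕ}

/-- a system which is a factor of another one: same heights, the lines are functions of the lines, the points are
functions of the points -/
structure Fac (s : Sys S m) (s' : Sys S q) : Prop where
  ft : s'.t = s.t
  fxi : s'.xi 1 ≤ s.xi 1
  fP : s'.P.dg 1 ≤ lB s

theorem Fac.refl (s : Sys S m) : Fac s s := ⟨rfl, le_rfl, le_sup_left⟩

theorem Fac.trans {p : ℕ} {s : Sys S m} {s' : Sys S q} {s'' : Sys S p} (h : Fac s s') (h' : Fac s' s'') :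
    Fac s s'' := by
  have hB : lB s' ≤ lB s := by
    unfold lB
    apply sup_le h.fP
    show s'.t.dg 1 ≤ _
    rw [h.ft]
    exact le_sup_right
  exact ⟨h'.ft.trans h.ft, h'.fxi.trans h.fxi, h'.fP.trans hB⟩

/-- projections -/
theorem Fac.pr (s : Sys S m) (M : ℕ → Matrix (Fin q) (Fin m) ℝ) (K : ℕ → ℝ) (hK : S.Sub K)
    (hM : ∀ᶠ k in UF, ∀ i j, |M k i j| ≤ K k) : Fac s (pr s M K hK hM) where
  ft := rfl
  fxi := sup_le_sup (pr_a_dg s M K hK hM 1) (pr_x_dg s M K hK hM 1)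
  fP := (pr_P_dg s M K hK hM 1).trans le_sup_left

namespace Fac

variable {s : Sys S m} {s' : Sys S q}

theorem A (h : Fac s s') (c : ℝ) : lA s' c ≤ lA s c := by
  unfold lA
  apply sup_le_sup h.fxi
  rw [h.ft]

theorem B (h : Fac s s') : lB s' ≤ lB s := by
  unfold lB
  apply sup_le h.fP
  show s'.t.dg 1 ≤ _
  rw [h.ft]
  exact le_sup_right

theorem T (h : Fac s s') : s'.T = s.T := by
  show s'.t.dg 1 = s.t.dg 1
  rw [h.ft]

/-- labels of the factor are labels of the system -/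
theorem DMc (h : Fac s s') {c : ℝ} {l : Lab S} (hl : Pool.Agent.Helper40.EL.DMc s' c l) :
    Pool.Agent.Helper40.EL.DMc s c l := by
  rw [DMc_iff] at hl ⊢
  exact hl.mono (h.A c) h.B

end Fac

/-- admissible forms: another pair of informations -/
theorem Ad_of_DM {ι : Type} [Fintype ι] [DecidableEq ι] {Φ : Gau S ι} {A B A' B' : Part S}
    {x : ∀ k, FD (S.F k) ι} (hx : Φ.Ad A' B' x) (h : (lb x).DM A B) : Φ.Ad A B x := by
  intro η hη
  filter_upwards [hx η hη, h.1.eventually (gt_mem_nhds hη), h.2.eventually (gt_mem_nhds hη)] with k a b c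
  have hn := (S.F k).pos
  rw [div_lt_iff₀ hn] at b c
  exact ⟨b.le, c.le, a.2.2.1, a.2.2.2.1, a.2.2.2.2⟩

/-- `H(c,s)` of a factor: there is a label of the window `c` of the BIG system with a bounding form on the space of the
factor, whose gradient is at least `2^(s n)` -/
def HfP (s : Sys S m) (s' : Sys S q) (D : ℕ) (c σ : ℝ) : Prop :=
  ∃ x : ∀ k, FD (S.F k) (Mon (q + 1) D), (gau s' D).Ad (cA s c) (cB s) x ∧
    ∀ e : ℝ, 0 < e → Tendsto (fun k => (x k).l.T.pb (fun ω =>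
      ¬ 2 ^ (2 * (σ - e) * (S.F k).n) ≤ sga s' D k ((x k).l.p.π ω) ((x k).g ω))) UF (𝓝 0)

/-- canonical forms of the factor: a label `kappa_c` of the BIG system which carries an optimal form -/
def IsCanP (s : Sys S m) (s' : Sys S q) (D : ℕ) (c : ℝ) (x : ∀ k, FD (S.F k) (Mon (q + 1) D)) : Prop :=
  (gau s' D).Opt (cA s c) (cB s) x ∧ IsKap s c (fun k => (x k).l)

theorem exists_canP (s : Sys S m) (s' : Sys S q) (D : ℕ) (c : ℝ) : ∃ x, IsCanP s s' D c x :=
  (gau s' D).exists_kap (cA s c) (cB s) (cA_Bd s c)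

theorem HfP_self {s : Sys S m} {c σ : ℝ} : HfP s s D c σ ↔ Hf s D c σ := Iff.rfl

variable {s : Sys S m} {s' : Sys S q}

/-- thickness of the factor itself -/
theorem HfP_of_Hf (h : Fac s s') {c σ : ℝ} (hf : Hf s' D c σ) : HfP s s' D c σ := by
  obtain ⟨x, hx, h1⟩ := hf
  exact ⟨x, Ad_of_DM hx (h.DMc (Gau.Ad.dm (gau s' D) hx)), h1⟩

/-- `H(c,s)` is read off any optimal form -/
theorem HfP.opt {c σ : ℝ} (h : HfP s s' D c σ) {x : ∀ k, FD (S.F k) (Mon (q + 1) D)}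
    (hx : (gau s' D).Opt (cA s c) (cB s) x) (e : ℝ) (he : 0 < e) :
    Tendsto (fun k => (x k).l.T.pb (fun ω =>
      ¬ 2 ^ (2 * (σ - e) * (S.F k).n) ≤ sga s' D k ((x k).l.p.π ω) ((x k).g ω))) UF (𝓝 0) := by
  obtain ⟨y, hy, hσ⟩ := h
  have h1 := Gau.Opt.lower (gau s' D) hx hy (sga s' D) (fun k ω M N c _ h => sga_mono s' D k ω M N c h) (2 * σ)
    (fun e' he' => by
      have := hσ (e' / 2) (by linarith)
      refine this.congr fun k => ?_
      congr 1
      funext ω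
      congr 2
      ring_nf) (2 * e) (by linarith)
  refine h1.congr fun k => ?_
  congr 1
  funext ω
  congr 2
  ring_nf

theorem HfP_iff_opt {c σ : ℝ} {x : ∀ k, FD (S.F k) (Mon (q + 1) D)}
    (hx : (gau s' D).Opt (cA s c) (cB s) x) : HfP s s' D c σ ↔ ∀ e : ℝ, 0 < e →
    Tendsto (fun k => (x k).l.T.pb (fun ω =>
      ¬ 2 ^ (2 * (σ - e) * (S.F k).n) ≤ sga s' D k ((x k).l.p.π ω) ((x k).g ω))) UF (𝓝 0) :=
  ⟨fun h e he => h.opt hx e he, fun h => ⟨x, hx.1, h⟩⟩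

theorem HfP.of_lt {c σ : ℝ} (h : ∀ σ' < σ, HfP s s' D c σ') : HfP s s' D c σ := by
  obtain ⟨x, hx⟩ := exists_canP s s' D c
  rw [HfP_iff_opt hx.1]
  intro e he
  have h1 := (h (σ - e / 2) (by linarith)).opt hx.1 (e / 2) (by linarith)
  refine h1.congr fun k => ?_
  congr 1
  funext ω
  congr 2
  ring_nf

theorem HfP.mono_s {c σ σ' : ℝ} (h : HfP s s' D c σ) (hσ : σ' ≤ σ) : HfP s s' D c σ' := by
  obtain ⟨x, hx, h1⟩ := h
  refine ⟨x, hx, fun e he => ?_⟩
  refine tendsto_of_tendsto_of_tendsto_of_le_of_le tendsto_const_nhds (h1 e he)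
    (fun k => (x k).l.T.pb_nonneg _) (fun k => FSp.pb_mono _ ?_)
  intro ω _ h2 h3
  apply h2
  refine le_trans ?_ h3
  apply Real.rpow_le_rpow_of_exponent_le (by norm_num)
  have := (S.F k).pos
  nlinarith

theorem HfP.mono_c {c c' σ : ℝ} (h : HfP s s' D c σ) (hc : c ≤ c') : HfP s s' D c' σ := by
  obtain ⟨x, hx, h1⟩ := h
  exact ⟨x, Ad_of_DM hx (DMc.mono hc (Gau.Ad.dm (gau s' D) hx)), h1⟩

/-- labels of the trivial label are double Markov -/
theorem triv_DM' (S : Sp) (A B : Part S) : Lab.DM (fun k => FLab.triv (S.F k)) A B := by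
  have h0 : ∀ A : Part S, Nul S (fun k => (FLab.triv (S.F k)).leak (A k)) := by
    intro A
    have h1 : (fun k => (FLab.triv (S.F k)).leak (A k)) = fun _ => 0 := by
      funext k
      exact FLab.triv_leak _
    rw [h1]
    show Tendsto (fun k => (0 : ℝ) / (S.F k).n) UF (𝓝 0)
    simp only [zero_div]
    exact tendsto_const_nhds
  exact ⟨h0 A, h0 B⟩

/-- `H(c,0)` -/
theorem HfP_zero (hD : 1 ≤ D) (s : Sys S m) (s' : Sys S q) (c : ℝ) : HfP s s' D c 0 := by
  obtain ⟨x, hx, h1⟩ := Hf_zero (s := s') hD c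
  obtain ⟨y, hy⟩ := exists_canP s s' D c
  refine ⟨fun k => trivFD (S.F k), (gau s' D).triv_Ad _ _, fun e he => ?_⟩
  have h1 : (fun k => (trivFD (ι := Mon (q + 1) D) (S.F k)).l.T.pb (fun ω =>
      ¬ 2 ^ (2 * (0 - e) * (S.F k).n) ≤ sga s' D k ((trivFD (ι := Mon (q + 1) D) (S.F k)).l.p.π ω)
        ((trivFD (ι := Mon (q + 1) D) (S.F k)).g ω))) = fun _ => 0 := by
    funext k
    apply le_antisymm _ (FSp.pb_nonneg _ _)
    refine le_trans (FSp.pb_mono _ (E' := fun _ => False) ?_) (le_of_eq ?_)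
    · intro ω _ h2
      apply h2
      have h3 := one_le_gam (N := q) hD (S.dl 1 k) (ptf s' k ((trivFD (ι := Mon (q + 1) D) (S.F k)).l.p.π ω))
      refine le_trans ?_ h3
      apply Real.rpow_le_one_of_one_le_of_nonpos (by norm_num)
      have := (S.F k).pos
      nlinarith
    · unfold FSp.pb mass
      apply Finset.sum_eq_zero
      intro ω _
      exact res_neg _ _ _ not_false
  rw [h1]
  exact tendsto_const_nhds

/-- right continuity in the window -/
theorem HfP.right {c σ : ℝ} (h : ∀ c', c < c' → HfP s s' D c' σ) : HfP s s' D c σ := by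
  have h1 : ∀ j : ℕ, ∃ x : ∀ k, FD (S.F k) (Mon (q + 1) D), (∀ᶠ k in UF,
      (gau s' D).Adm (cA s c) (cB s) (1 / ((j : ℝ) + 1)) k (x k) ∧
      (x k).l.T.pb (fun ω => ¬ 2 ^ (2 * (σ - 1 / ((j : ℝ) + 1)) * (S.F k).n) ≤
        sga s' D k ((x k).l.p.π ω) ((x k).g ω)) ≤ 1 / ((j : ℝ) + 1)) := by
    intro j
    have hj : (0 : ℝ) < 1 / ((j : ℝ) + 1) := by positivity
    obtain ⟨x, hx, hx'⟩ := h (c + 1 / ((j : ℝ) + 1) / 3) (by linarith)
    refine ⟨x, ?_⟩
    filter_upwards [hx _ (show (0 : ℝ) < 1 / ((j : ℝ) + 1) / 3 by linarith),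
      leak_window s (show c ≤ c + 1 / ((j : ℝ) + 1) / 3 by linarith) _ (show (0 : ℝ) < 1 / ((j : ℝ) + 1) / 3 by linarith),
      (hx' _ hj).eventually (gt_mem_nhds hj)] with k a b d
    have hn := (S.F k).pos
    refine ⟨⟨?_, ?_, a.2.2.1, ?_, ?_⟩, d.le⟩
    · have := b (x k).l
      have h2 := a.1
      nlinarith
    · have h2 := a.2.1
      nlinarith
    · exact (Gau.Adm.mono (gau s' D) (by linarith) a).2.2.2.1
    · exact (Gau.Adm.mono (gau s' D) (by linarith) a).2.2.2.2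
  choose x hx using h1
  obtain ⟨y, J, hJ, hy, hP⟩ := (gau s' D).diag (cA s c) (cB s) x (fun j k z =>
      z.l.T.pb (fun ω => ¬ 2 ^ (2 * (σ - 1 / ((j : ℝ) + 1)) * (S.F k).n) ≤
        sga s' D k (z.l.p.π ω) (z.g ω)) ≤ 1 / ((j : ℝ) + 1)) hx
  refine ⟨y, hy, fun e he => ?_⟩
  have h0 : Tendsto (fun k => 1 / ((J k : ℝ) + 1)) UF (𝓝 0) :=
    tendsto_one_div_add_atTop_nhds_zero_nat.comp hJ
  refine tendsto_of_tendsto_of_tendsto_of_le_of_le' tendsto_const_nhds h0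
    (Eventually.of_forall fun k => (y k).l.T.pb_nonneg _) ?_
  filter_upwards [hP, h0.eventually (gt_mem_nhds he)] with k hk hk'
  refine le_trans (FSp.pb_mono _ ?_) hk
  intro ω _ h2 h3
  apply h2
  refine le_trans ?_ h3
  apply Real.rpow_le_rpow_of_exponent_le (by norm_num)
  have hn := (S.F k).pos
  have := mul_le_mul_of_nonneg_right (show σ - e ≤ σ - 1 / ((J k : ℝ) + 1) by linarith) hn.le
  linarith

/-- upper bound of the gradient: a form of the factor on any label of the pair `(cA s c, cB s)` -/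
theorem gmax_le_one {A B : Part S} {σ : ℝ} (s' : Sys S q) {x : ∀ k, FD (S.F k) (Mon (q + 1) D)}
    (hx : (gau s' D).Ad A B x) (hx' : ∀ e : ℝ, 0 < e → Tendsto (fun k => (x k).l.T.pb (fun ω =>
      ¬ 2 ^ (2 * (σ - e) * (S.F k).n) ≤ sga s' D k ((x k).l.p.π ω) ((x k).g ω))) UF (𝓝 0)) : σ ≤ 1 := by
  by_contra hc
  push Not at hc
  set e : ℝ := (σ - 1) / 4 with he
  have he0 : 0 < e := by rw [he]; linarith
  have he1 : σ = 1 + 4 * e := by rw [he]; ring
  have h1 := hx (min e (1 / 4)) (lt_min he0 (by norm_num))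
  have h2 := (hx' e he0).eventually (gt_mem_nhds (show (0 : ℝ) < 1 / 4 by norm_num))
  have hCm : (0 : ℝ) ≤ ((q + 1 : ℕ) : ℝ) * nn (q + 1) D * Cm (q + 1) D ^ 2 := by
    have := nn_one (q + 1) D
    positivity
  have h3 := (S.Sub_const hCm).eventually_le he0
  have h4 : ∃ k, (gau s' D).Adm A B (min e (1 / 4)) k (x k) ∧
      (x k).l.T.pb (fun ω => ¬ 2 ^ (2 * (σ - e) * (S.F k).n) ≤ sga s' D k ((x k).l.p.π ω) ((x k).g ω)) < 1 / 4 ∧
      ((q + 1 : ℕ) : ℝ) * nn (q + 1) D * Cm (q + 1) D ^ 2 + 2 ≤ 2 ^ (e * (S.F k).n) :=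
    (h1.and (h2.and h3)).exists
  obtain ⟨k, a, b, d⟩ := h4
  have hn := (S.F k).pos
  have h5 : (x k).l.T.pb (fun ω => (¬ sph s' D k ((x k).l.p.π ω) ((x k).g ω) ≤ 2 ^ (min e (1 / 4) * (S.F k).n)) ∨
      (¬ 2 ^ (2 * (σ - e) * (S.F k).n) ≤ sga s' D k ((x k).l.p.π ω) ((x k).g ω))) < 1 := by
    refine lt_of_le_of_lt (pb_or _ _ _) ?_
    have h6 := a.2.2.2.1
    have h7 : min e (1 / 4 : ℝ) ≤ 1 / 4 := min_le_right _ _
    have h8 : (x k).l.T.pb (fun ω => ¬ sph s' D k ((x k).l.p.π ω) ((x k).g ω) ≤ 2 ^ (min e (1 / 4) * (S.F k).n)) ≤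
      min e (1 / 4) := h6
    linarith
  have h6 : ∃ ω, (x k).l.T.μ ω ≠ 0 ∧ ¬ ((¬ sph s' D k ((x k).l.p.π ω) ((x k).g ω) ≤ 2 ^ (min e (1 / 4) * (S.F k).n)) ∨
      (¬ 2 ^ (2 * (σ - e) * (S.F k).n) ≤ sga s' D k ((x k).l.p.π ω) ((x k).g ω))) := by
    by_contra hcon
    push Not at hcon
    have h7 : (x k).l.T.pb (fun _ => True) ≤ (x k).l.T.pb (fun ω =>
        (¬ sph s' D k ((x k).l.p.π ω) ((x k).g ω) ≤ 2 ^ (min e (1 / 4) * (S.F k).n)) ∨
        (¬ 2 ^ (2 * (σ - e) * (S.F k).n) ≤ sga s' D k ((x k).l.p.π ω) ((x k).g ω))) := by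
      apply FSp.pb_mono
      intro ω hω _
      rcases hcon ω hω with h9 | h9
      · exact Or.inl (not_le.mpr h9)
      · exact Or.inr (not_le.mpr h9)
    have h8 : (x k).l.T.pb (fun _ => True) = 1 := by
      have h9 := (x k).l.T.pb_add_compl (fun _ => True)
      have h10 : (x k).l.T.pb (fun _ => ¬ True) = 0 := by
        unfold FSp.pb mass
        apply Finset.sum_eq_zero
        intro ω _
        exact res_neg _ _ _ (not_not.mpr trivial)
      linarith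
    linarith
  obtain ⟨ω, hω, h7⟩ := h6
  rw [not_or, not_not, not_not] at h7
  have hpd : PdM ((x k).g ω) := (a.2.2.1 ω hω).1.pdM
  have h8 := gam_le ((x k).g ω) hpd (S.dl 1 k) (S.dl_pos 1 k) (ptf s' k ((x k).l.p.π ω))
  have h9 : sga s' D k ((x k).l.p.π ω) ((x k).g ω) ≤ 2 ^ (2 * (S.F k).n) *
      (((q + 1 : ℕ) : ℝ) * nn (q + 1) D * Cm (q + 1) D ^ 2 * sph s' D k ((x k).l.p.π ω) ((x k).g ω)) := by
    have e1 : (2 : ℝ) ^ (2 * (S.F k).n) = (S.dl 1 k ^ 2)⁻¹ := by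
      rw [← inv_pow, inv_dl_one, ← Real.rpow_natCast, ← Real.rpow_mul (by norm_num)]
      congr 1; push_cast; ring
    rw [e1, ← div_eq_inv_mul, le_div_iff₀ (by have := S.dl_pos 1 k; positivity), mul_comm]
    exact h8
  have h10 : (2 : ℝ) ^ (min e (1 / 4) * (S.F k).n) ≤ 2 ^ (e * (S.F k).n) := by
    apply Real.rpow_le_rpow_of_exponent_le (by norm_num)
    exact mul_le_mul_of_nonneg_right (min_le_left _ _) hn.le
  have h11 : (2 : ℝ) ^ (2 * (σ - e) * (S.F k).n) ≤ 2 ^ (2 * (S.F k).n) * (2 ^ (e * (S.F k).n) * 2 ^ (e * (S.F k).n)) := by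
    refine (h7.2.trans h9).trans ?_
    apply mul_le_mul_of_nonneg_left _ (by positivity)
    have h12 := h7.1.trans h10
    have h13 : ((q + 1 : ℕ) : ℝ) * nn (q + 1) D * Cm (q + 1) D ^ 2 ≤ 2 ^ (e * (S.F k).n) := by linarith
    exact mul_le_mul h13 h12 (phi_nonneg _ (fun y => hpd.nonneg y) _) (by positivity)
  rw [← Real.rpow_add (by norm_num), ← Real.rpow_add (by norm_num),
    Real.rpow_le_rpow_left_iff (by norm_num)] at h11
  rw [he1] at h11
  nlinarith [mul_pos he0 hn]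

theorem HfP.le_one {c σ : ℝ} (h : HfP s s' D c σ) : σ ≤ 1 := by
  obtain ⟨x, hx, hx'⟩ := h
  exact gmax_le_one s' hx hx'

end

end Pool.Agent.Helper3.SG
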