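import Pool.Agent.Helper3.SG.Spd

/-! SPEED for factors over the windows of the big system; the thickness `lamP`. -/

set_option autoImplicit false

namespace Pool.Agent.Helper3.SG

open Finset Filter Topology Matrix Pool.Agent.Helper69.RK Pool.Agent.Helper31.EC Pool.Agent.Helper40.EL
open Pool.Agent.Helper31.EC.Sp
open Pool.Agent.Helper95.LF Pool.Agent.Helper3.LF Pool.Agent.Helper48.NS Pool.Agent.Helper89.LX
open Pool.Agent.Helper3.PR

noncomputable section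

variable {S : Sp} {m q D : ℕ} {s : Sys S m} {s' : Sys S q}

theorem Fac.pA (hF : Fac s s') (c : ℝ) : PLe (cA s' c) (cA s c) := by
  rw [cA_eq, cA_eq, PLe_rpI, cl_A, cl_A]
  exact hF.A c

theorem Fac.pB (hF : Fac s s') : PLe (cB s') (cB s) := by
  rw [cB_eq, cB_eq, PLe_rpI, cl_B, cl_B]
  exact hF.B

/-- full entropy of the height below the window, over the lines of a factor -/
theorem win_ent_fac (hF : Fac s s') {c : ℝ} (h0 : 0 ≤ c) (h1 : c ≤ 1) {l : Lab S} (hl : DMc s c l) :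
    1 - c ≤ ul (l.sp.rt (fun k => Setoid.ker ((l.pj.vv s'.t).cellv 1 k)) (wB s' c l)) := by
  have e1 := win_ent h0 h1 hl
  rw [hF.ft]
  have hU1 : UB (l.sp.rt (fun k => Setoid.ker ((l.pj.vv s.t).cellv 1 k)) (wB s c l)) :=
    Sp.UB_rt ((l.pj.vv s.t).bdd 1).toInf _
  have hU2 : UB (l.sp.rt (fun k => Setoid.ker ((l.pj.vv s.t).cellv 1 k)) (wB s' c l)) :=
    Sp.UB_rt ((l.pj.vv s.t).bdd 1).toInf _
  have hp : Tendsto (fun k => h (cA s' c k) (cA s c k) / (S.F k).n) UF (𝓝 0) := hF.pA c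
  have t1 := (ul_tendsto hU1).sub hp
  rw [sub_zero] at t1
  refine e1.trans (le_of_tendsto_of_tendsto t1 (ul_tendsto hU2) (Eventually.of_forall fun k => ?_))
  have hn := (S.F k).pos
  unfold Sp.rt
  beta_reduce
  rw [sp_n, ← sub_div]
  apply div_le_div_of_nonneg_right _ hn.le
  have f1 : (l.sp.F k).e (Setoid.ker ((l.pj.vv s.t).cellv 1 k)) (wB s c l k ⊓ (l.sp.F k).Z) =
      h ((l k).p.map (fc (Setoid.ker (s.t.cellv 1 k)))) ((l k).v ⊔ (l k).p.map (cA s c k)) := by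
    rw [cellv_pj]
    exact (h_fc _ _).symm
  have f2 : (l.sp.F k).e (Setoid.ker ((l.pj.vv s.t).cellv 1 k)) (wB s' c l k ⊓ (l.sp.F k).Z) =
      h ((l k).p.map (fc (Setoid.ker (s.t.cellv 1 k)))) ((l k).v ⊔ (l k).p.map (cA s' c k)) := by
    rw [cellv_pj]
    exact (h_fc _ _).symm
  have f3 := (l k).p.h_map (cA s' c k) (cA s c k)
  rw [f1, f2, ← f3]
  set X : FL (l k).T := (l k).p.map (fc (Setoid.ker (s.t.cellv 1 k))) with hX
  set Y := (l k).p.map (cA s c k)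
  set Y' := (l k).p.map (cA s' c k)
  -- finite inequality
  have g1 : h X ((l k).v ⊔ Y ⊔ Y') ≤ h X ((l k).v ⊔ Y') := h_anti (sup_le (le_sup_left.trans le_sup_left) le_sup_right)
  have g2 : h (X ⊔ Y') ((l k).v ⊔ Y) = h Y' ((l k).v ⊔ Y) + h X ((l k).v ⊔ Y ⊔ Y') := by
    rw [sup_comm X Y', sup_comm ((l k).v ⊔ Y) Y']
    exact h_chain Y' X ((l k).v ⊔ Y)
  have g3 : h X ((l k).v ⊔ Y) ≤ h (X ⊔ Y') ((l k).v ⊔ Y) := h_mono le_sup_left
  have g4 : h Y' ((l k).v ⊔ Y) ≤ h Y' Y := h_anti le_sup_right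
  linarith

/-- LEMMA SPEED FOR FACTORS -/
theorem HfP_speed (hF : Fac s s') {c c' σ : ℝ} (h0 : 0 ≤ c) (hcc : c ≤ c') (h1 : c' ≤ 1) (hf : HfP s s' D c σ) :
    HfP s s' D c' (min 1 (σ + (c' - c))) := by
  rcases lt_or_ge c 1 with hc | hc
  · obtain ⟨x, hx, hσ⟩ := hf
    have hl : DMc s c (lb x) := Gau.Ad.dm (gau s' D) hx
    have hl' : DMc s c' (lb x) := DMc.mono hcc hl
    obtain ⟨y, hy, hy'⟩ := speed_main' (s := s') h0 hc hcc h1 hx (win_ent_fac hF h0 hc.le hl)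
      (A' := fun k => cA s c' k ⊔ cA s' c' k) (B' := fun k => cB s k ⊔ cB s' k)
      (Lab.DM.mono hl' (PLe_of_le fun k => le_sup_left) (PLe_of_le fun k => le_sup_left))
      (fun k => le_sup_right) (fun k => le_sup_right) hσ
    refine ⟨y, Ad_of_DM hy ?_, hy'⟩
    exact Lab.DM.mono (Gau.Ad.dm (gau s' D) hy) ((PLe.refl _).sup_le (hF.pA c')) ((PLe.refl _).sup_le hF.pB)
  · have e1 : c' - c ≤ 0 := by linarith
    exact (hf.mono_c hcc).mono_s ((min_le_right _ _).trans (by linarith))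

/-- `H(c,c)` -/
theorem HfP_self' (hF : Fac s s') (hD : 1 ≤ D) {c : ℝ} (h0 : 0 ≤ c) (h1 : c ≤ 1) : HfP s s' D c c := by
  have := HfP_speed (c := 0) (c' := c) hF le_rfl h0 h1 (HfP_zero hD s s' 0)
  rw [sub_zero, zero_add, min_eq_right h1] at this
  exact this

/-- the thickness of the best container of the factor, labels of the window `c` of the big system -/
def lamP (s : Sys S m) (s' : Sys S q) (D : ℕ) (c : ℝ) : ℝ := sSup {σ | HfP s s' D c σ}

theorem HfP_bdd (c : ℝ) : BddAbove {σ | HfP s s' D c σ} := ⟨1, fun _ h => HfP.le_one h⟩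

theorem le_lamP {c σ : ℝ} (h : HfP s s' D c σ) : σ ≤ lamP s s' D c := le_csSup (HfP_bdd c) h

theorem HfP_lamP (hD : 1 ≤ D) (c : ℝ) : HfP s s' D c (lamP s s' D c) := by
  apply HfP.of_lt
  intro σ hσ
  obtain ⟨σ', h1, h2⟩ := exists_lt_of_lt_csSup ⟨0, HfP_zero hD s s' c⟩ hσ
  exact h1.mono_s h2.le

theorem HfP_iff_lamP (hD : 1 ≤ D) {c σ : ℝ} : HfP s s' D c σ ↔ σ ≤ lamP s s' D c :=
  ⟨le_lamP, fun h => (HfP_lamP hD c).mono_s h⟩

theorem lamP_le_one (hD : 1 ≤ D) (c : ℝ) : lamP s s' D c ≤ 1 := (HfP_lamP hD c).le_one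

theorem lamP_nonneg (hD : 1 ≤ D) (c : ℝ) : 0 ≤ lamP s s' D c := le_lamP (HfP_zero hD s s' c)

theorem lamP_ge_self (hF : Fac s s') (hD : 1 ≤ D) {c : ℝ} (h0 : 0 ≤ c) (h1 : c ≤ 1) : c ≤ lamP s s' D c :=
  le_lamP (HfP_self' hF hD h0 h1)

theorem lamP_one (hF : Fac s s') (hD : 1 ≤ D) : lamP s s' D 1 = 1 :=
  le_antisymm (lamP_le_one hD 1) (lamP_ge_self hF hD zero_le_one le_rfl)

theorem lamP_mono (hD : 1 ≤ D) {c c' : ℝ} (h : c ≤ c') : lamP s s' D c ≤ lamP s s' D c' :=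
  le_lamP ((HfP_lamP hD c).mono_c h)

/-- SPEED for the thickness -/
theorem lamP_speed (hF : Fac s s') (hD : 1 ≤ D) {c c' : ℝ} (h0 : 0 ≤ c) (hc : c ≤ c') (h1 : c' ≤ 1) :
    min 1 (lamP s s' D c + (c' - c)) ≤ lamP s s' D c' := le_lamP (HfP_speed hF h0 hc h1 (HfP_lamP hD c))

/-- the offset `lamP c - c` is nondecreasing as long as the thickness is less than one -/
theorem lamP_offset (hF : Fac s s') (hD : 1 ≤ D) {c c' : ℝ} (h0 : 0 ≤ c) (hc : c ≤ c') (h1 : c' ≤ 1)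
    (h2 : lamP s s' D c' < 1) : lamP s s' D c - c ≤ lamP s s' D c' - c' := by
  have h3 := lamP_speed (D := D) hF hD h0 hc h1
  rcases min_le_iff.mp h3 with h4 | h4
  · linarith
  · linarith

theorem lamP_right (hD : 1 ≤ D) {c v : ℝ} (h : ∀ c', c < c' → v ≤ lamP s s' D c') : v ≤ lamP s s' D c :=
  le_lamP (HfP.right fun c' hc' => (HfP_lamP hD c').mono_s (h c' hc'))

/-- thickness of the factor itself -/
theorem eta_le_lamP (hF : Fac s s') (hD : 1 ≤ D) (c : ℝ) : eta s' D c ≤ lamP s s' D c :=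
  le_lamP (HfP_of_Hf hF (Hf_eta hD c))

theorem lamP_self (c : ℝ) : lamP s s D c = eta s D c := rfl

end

end Pool.Agent.Helper3.SG
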