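import Pool.Agent.Helper3.SG.Zoom

/-! Forms of the zoom of a factor as forms of the factor over the windows of the big system. -/

set_option autoImplicit false

namespace Pool.Agent.Helper3.SG

open Finset Filter Topology Matrix Pool.Agent.Helper69.RK Pool.Agent.Helper31.EC Pool.Agent.Helper40.EL
open Pool.Agent.Helper31.EC.Sp
open Pool.Agent.Helper95.LF Pool.Agent.Helper3.LF Pool.Agent.Helper48.NS Pool.Agent.Helper89.LX
open Pool.Agent.Helper3.PR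
open Pool.Agent.Helper3.ZM (aff afs afm phi_afm gam_afm afm_symm afm_nonneg GG_gain VV_ext cellv_pj' triv_DM h_kap)

noncomputable section

variable {S : Sp} {m r D : ℕ}

/-- the averaged logarithm of the canonical form of the factor, over the window `c` of the big system -/
def lvolP (g : Sys S r) (s : Sys S m) (D : ℕ) (c : ℝ) : ℝ :=
  ul (fun k => lgd s D (exists_canP g s D c).choose k / (S.F k).n)

theorem lvolP_eq (g : Sys S r) (s : Sys S m) {c : ℝ} {x : ∀ k, FD (S.F k) (Mon (m + 1) D)}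
    (hx : (gau s D).Opt (cA g c) (cB g) x) : ul (fun k => lgd s D x k / (S.F k).n) = lvolP g s D c :=
  le_antisymm (lgd_le_opt s (exists_canP g s D c).choose_spec.1 hx.1)
    (lgd_le_opt s hx (exists_canP g s D c).choose_spec.1.1)

theorem lgd_le_lvolP (g : Sys S r) (s : Sys S m) {c : ℝ} {x : ∀ k, FD (S.F k) (Mon (m + 1) D)}
    (hx : (gau s D).Ad (cA g c) (cB g) x) : ul (fun k => lgd s D x k / (S.F k).n) ≤ lvolP g s D c :=
  lgd_le_opt s (exists_canP g s D c).choose_spec.1 hx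

theorem lvolP_mono (g : Sys S r) (s : Sys S m) {c c' : ℝ} (h : c ≤ c') : lvolP g s D c ≤ lvolP g s D c' := by
  have h1 := (exists_canP g s D c).choose_spec.1.1
  have h2 : (gau s D).Ad (cA g c') (cB g) (exists_canP g s D c).choose :=
    Ad_of_DM h1 (DMc.mono h (Gau.Ad.dm (gau s D) h1))
  exact lgd_le_lvolP g s h2

namespace ZF

variable {g : Sys S r} {s : Sys S m} (Z : ZF g s)

/-- the inverse corner -/
def oi (k : ℕ) (ω : (Z.l k).T.Ω) : Fin (m + 1) → ℝ := fun i => -((S.dl Z.c k)⁻¹ * Z.oo k ω i)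

/-- labels of the zoom as labels of the system -/
def cl (y : Lab Z.sp) : Lab S := Z.l.comp Z.e Z.e_pos y

theorem cl_DM {y : Lab Z.sp} (hy : DMc Z.sys 0 y) : DMc g Z.c (Z.cl y) := Z.DMc_comp hy

/-- the form on the old space -/
def zfm (y : ∀ k, FD (Z.sp.F k) (Mon (m + 1) D)) (k : ℕ) (ω : (y k).l.T.Ω) :
    Matrix (Mon (m + 1) D) (Mon (m + 1) D) ℝ := 1 + afm (Z.oi k ((y k).l.p.π ω)) (S.dl Z.c k)⁻¹ ((y k).g ω)

theorem zfm_meas (y : ∀ k, FD (Z.sp.F k) (Mon (m + 1) D)) (k : ℕ) (ω ω' : (Z.cl (lb y) k).T.Ω)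
    (h : (Z.cl (lb y) k).T.μ ω ≠ 0) (h' : (Z.cl (lb y) k).T.μ ω' ≠ 0) (hV : (Z.cl (lb y) k).V ω ω')
    (hZ : (Z.cl (lb y) k).T.Z ω ω') : Z.zfm y k ω = Z.zfm y k ω' := by
  have a : (y k).l.T.μ ω ≠ 0 := h
  have a' : (y k).l.T.μ ω' ≠ 0 := h'
  have b : (Z.l k).T.μ ((y k).l.p.π ω) ≠ 0 := (y k).l.p.supp ω a
  have b' : (Z.l k).T.μ ((y k).l.p.π ω') ≠ 0 := (y k).l.p.supp ω' a'
  have c1 : (Z.l k).V ((y k).l.p.π ω) ((y k).l.p.π ω') := hV.1
  have c2 : (y k).l.V ω ω' := hV.2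
  have c3 : (S.F k).Z ((Z.l k).p.π ((y k).l.p.π ω)) ((Z.l k).p.π ((y k).l.p.π ω')) := hZ
  have c4 : (Z.l k).T.Z ((y k).l.p.π ω) ((y k).l.p.π ω') := ((Z.l k).p.hZ _ _ b b').mpr c3
  have c5 : (y k).l.T.Z ω ω' := ((y k).l.p.hZ ω ω' a a').mpr ⟨c1, c4⟩
  have e1 := ((y k).meas ω ω' a a' c2 c5).1
  have e2 := Z.oo_meas k _ _ b b' c1 c4
  unfold zfm oi
  rw [e1, e2]

theorem zfm_ge {A B : Part Z.sp} {Φ : Gau Z.sp (Mon (m + 1) D)} {y : ∀ k, FD (Z.sp.F k) (Mon (m + 1) D)}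
    (hy : Φ.Ad A B y) : ∀ᶠ k in UF, ∀ ω, (Z.cl (lb y) k).T.μ ω ≠ 0 →
      (Z.zfm y k ω).IsSymm ∧ ∀ x, x ⬝ᵥ x ≤ qf (Z.zfm y k ω) x := by
  filter_upwards [hy 1 one_pos] with k hk ω hω
  have h1 := (hk.2.2.1 ω hω).1
  unfold zfm
  refine ⟨Matrix.isSymm_one.add (afm_symm _ _ h1.1), fun x => ?_⟩
  rw [qf_add, qf_one]
  have h2 := afm_nonneg (Z.oi k ((y k).l.p.π ω)) (S.dl Z.c k)⁻¹ (A := (y k).g ω) (fun v => h1.psd.2 v) x
  show x ⬝ᵥ x ≤ x ⬝ᵥ x + x ⬝ᵥ (afm (Z.oi k ((y k).l.p.π ω)) (S.dl Z.c k)⁻¹ ((y k).g ω) *ᵥ x)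
  linarith

theorem zfm_phi {A B : Part Z.sp} {y : ∀ k, FD (Z.sp.F k) (Mon (m + 1) D)}
    (hy : (gau Z.sys D).Ad A B y) :
    ∃ L : ℕ → ℝ, S.Sub L ∧ Sp.Typ (S := (Z.cl (lb y)).sp) (fun k (ω : (y k).l.T.Ω) =>
      (gau s D).φ k ((Z.cl (lb y) k).p.π ω) (Z.zfm y k ω) ≤ L k) := by
  obtain ⟨K1, hK1, hT⟩ := ad_sub hy
  obtain ⟨K2, hK2, h2⟩ := (gau s D).one
  refine ⟨fun k => K2 k + K1 k, hK2.add (Z.Sub_sp.mpr hK1), ?_⟩
  refine squeeze_zero' (Eventually.of_forall fun k => Sp.mass_res_nonneg (S := (Z.cl (lb y)).sp) k _) ?_ hT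
  filter_upwards [h2] with k a
  refine mass_res_mono (y k).l.T.μ _ _ (y k).l.T.nn (fun ω hω hE hcon => hE ?_)
  have hω' : (Z.l k).T.μ ((y k).l.p.π ω) ≠ 0 := (y k).l.p.supp ω hω
  have hω'' := (Z.l k).p.supp _ hω'
  have h4 : (gau s D).φ k ((Z.l k).p.π ((y k).l.p.π ω)) (Z.zfm y k ω) =
      (gau s D).φ k ((Z.l k).p.π ((y k).l.p.π ω)) 1 +
        phi (S.dl 1 k) (afm (Z.oi k ((y k).l.p.π ω)) (S.dl Z.c k)⁻¹ ((y k).g ω))
          (ptf s k ((Z.l k).p.π ((y k).l.p.π ω))) := (gau s D).add k _ _ _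
  show (gau s D).φ k ((Z.l k).p.π ((y k).l.p.π ω)) (Z.zfm y k ω) ≤ K2 k + K1 k
  rw [h4]
  refine add_le_add (a _ hω'') ?_
  rw [phi_afm, Z.dl_eq]
  have h5 : aff (Z.oi k ((y k).l.p.π ω)) (S.dl Z.c k)⁻¹ (ptf s k ((Z.l k).p.π ((y k).l.p.π ω))) =
      ptf Z.sys k ((y k).l.p.π ω) := Z.ptf_aff' k _
  rw [h5]
  exact hcon

/-- forms of the zoom are admissible for the system -/
theorem zfm_ad {y : ∀ k, FD (Z.sp.F k) (Mon (m + 1) D)} (hy : (gau Z.sys D).Ad (cA Z.sys 0) (cB Z.sys) y) :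
    (gau s D).Ad (cA g Z.c) (cB g) (cutFD (gau s D) (Z.cl (lb y)) (Z.zfm y) (Z.zfm_meas y)) := by
  obtain ⟨L, hL, hT⟩ := Z.zfm_phi hy
  exact cut_ad (Φ := gau s D) (Z.cl (lb y)) (Z.cl_DM (Gau.Ad.dm _ hy)) (Z.zfm y) (Z.zfm_meas y)
    (Z.zfm_ge hy) L hL hT

theorem zfm_typ {y : ∀ k, FD (Z.sp.F k) (Mon (m + 1) D)} (hy : (gau Z.sys D).Ad (cA Z.sys 0) (cB Z.sys) y) :
    Tendsto (fun k => (y k).l.T.pb (fun ω => ¬ Cpd ((gau s D).cp k) (Z.zfm y k ω))) UF (𝓝 0) := by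
  obtain ⟨L, hL, hT⟩ := Z.zfm_phi hy
  exact cut_typ (Φ := gau s D) (Z.cl (lb y)) (Z.zfm y) (Z.zfm_ge hy) L hL hT

/-- comparison of the volume determinants -/
theorem zfm_GG (hD : 1 ≤ D) (y : ∀ k, FD (Z.sp.F k) (Mon (m + 1) D)) (k : ℕ) (ω : (y k).l.T.Ω) {c : ℝ}
    (hc : Cpd c ((y k).g ω)) :
    GG (Z.sp.dl 1 k) ((y k).g ω) (ptf Z.sys k ((y k).l.p.π ω)) ≤
      (2 * S.dl Z.c k ^ 2) ^ m * GG (S.dl 1 k) (Z.zfm y k ω) (ptf s k ((Z.l k).p.π ((y k).l.p.π ω))) := by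
  have h0 : ∀ x, 0 ≤ x ⬝ᵥ (afm (Z.oi k ((y k).l.p.π ω)) (S.dl Z.c k)⁻¹ ((y k).g ω) *ᵥ x) :=
    afm_nonneg _ _ fun v => hc.psd.2 v
  have hA : PdM (Z.zfm y k ω) := by
    refine pdM_of_one_le (Matrix.isSymm_one.add (afm_symm _ _ hc.1)) fun x => ?_
    unfold zfm
    rw [qf_add, qf_one]
    have := h0 x
    show x ⬝ᵥ x ≤ x ⬝ᵥ x + x ⬝ᵥ (afm (Z.oi k ((y k).l.p.π ω)) (S.dl Z.c k)⁻¹ ((y k).g ω) *ᵥ x)
    linarith
  have h1 := GG_gain hD (S.dl 1 k) (S.dl Z.c k) (S.dl_pos Z.c k) (Z.zfm y k ω) ((y k).g ω) hA hc.1 hc.2.1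
    (Z.oi k ((y k).l.p.π ω)) (ptf s k ((Z.l k).p.π ((y k).l.p.π ω))) (fun x => by
      unfold zfm
      rw [dv_add, Matrix.one_mulVec]
      have := dot_self_nonneg x
      linarith)
  have h5 : aff (Z.oi k ((y k).l.p.π ω)) (S.dl Z.c k)⁻¹ (ptf s k ((Z.l k).p.π ((y k).l.p.π ω))) =
      ptf Z.sys k ((y k).l.p.π ω) := Z.ptf_aff' k _
  rw [Z.dl_eq, h5] at h1
  exact h1

/-- volume of the window `0` of the zoom, and of the window `c` of the system -/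
theorem lgd_zoom (hD : 1 ≤ D) {y : ∀ k, FD (Z.sp.F k) (Mon (m + 1) D)}
    (hy : (gau Z.sys D).Ad (cA Z.sys 0) (cB Z.sys) y) :
    2 * m * Z.c + Z.e * ul (fun k => lgd Z.sys D y k / (Z.sp.F k).n) ≤ lvolP g s D Z.c := by
  have hx := Z.zfm_ad hy
  set x := cutFD (gau s D) (Z.cl (lb y)) (Z.zfm y) (Z.zfm_meas y) with hxd
  refine le_trans ?_ (lgd_le_lvolP g s hx)
  obtain ⟨C, hC, hub⟩ := logGG_ub Z.sys D
  have t1 := (ul_tendsto (lgd_UB Z.sys hy)).const_mul Z.e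
  have t2 := ul_tendsto (lgd_UB s hx)
  have t3 := (Z.zfm_typ hy).const_mul (C * Z.e + (2 * m * Z.c + 1))
  rw [mul_zero] at t3
  have t4 : Tendsto (fun k => (m : ℝ) / (S.F k).n) UF (𝓝 0) := S.div_n_tendsto m
  have t5 := (((t2.sub_const (2 * m * Z.c)).add t4).add t3)
  rw [add_zero, add_zero] at t5
  have h4 := le_of_tendsto_of_tendsto t1 t5 (by
    filter_upwards [hub, hy 1 one_pos, hx 1 one_pos, S.lim.eventually (eventually_ge_atTop (m : ℝ))] with k h1 h2 h3 hnm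
    have hn := (S.F k).pos
    have hcy : ∀ ω, (y k).l.T.μ ω ≠ 0 → Cpd ((gau Z.sys D).cp k) ((y k).g ω) := fun ω hω => (h2.2.2.1 ω hω).1
    have hcx : ∀ ω, (y k).l.T.μ ω ≠ 0 → Cpd ((gau s D).cp k) ((x k).g ω) := fun ω hω => (h3.2.2.1 ω hω).1
    have hn' : (Z.sp.F k).n = Z.e * (S.F k).n := Z.sp_n k
    set f : (y k).l.T.Ω → ℝ := fun ω => Real.logb 2 (GG (S.dl 1 k) ((x k).g ω)
      (ptf s k ((Z.l k).p.π ((y k).l.p.π ω)))) with hf
    set g' : (y k).l.T.Ω → ℝ := fun ω => Real.logb 2 (GG (Z.sp.dl 1 k) ((y k).g ω)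
      (ptf Z.sys k ((y k).l.p.π ω))) with hg
    have e1 : lgd s D x k = ∑ ω, (y k).l.T.μ ω * f ω := rfl
    have e2 : lgd Z.sys D y k = ∑ ω, (y k).l.T.μ ω * g' ω := rfl
    have h5 := exp_le (y k).l.T f g' (fun ω => Cpd ((gau s D).cp k) (Z.zfm y k ω)) (2 * m * Z.c * (S.F k).n - m)
      (C * (Z.e * (S.F k).n)) (by
        intro ω hω hE
        have a0 : (x k).g ω = Z.zfm y k ω := by
          show cutm ((gau s D).cp k) (Z.zfm y k ω) = _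
          unfold cutm
          rw [if_pos hE]
        have a1 := GG_pos' (Z.sp.dl 1 k) (hcy ω hω).pdM (ptf Z.sys k ((y k).l.p.π ω))
        have a2 := GG_pos' (S.dl 1 k) (hcx ω hω).pdM (ptf s k ((Z.l k).p.π ((y k).l.p.π ω)))
        have a3 := Z.zfm_GG hD y k ω (hcy ω hω)
        rw [← a0] at a3
        have a4 := Real.logb_le_logb_of_le (b := 2) (by norm_num) a1 a3
        have hd := S.dl_pos Z.c k
        have hlog : Real.logb 2 (S.dl Z.c k) = -(Z.c * (S.F k).n) := by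
          unfold Sp.dl
          rw [Real.logb_rpow (by norm_num) (by norm_num)]
        rw [Real.logb_mul (by positivity) a2.ne', Real.logb_pow, Real.logb_mul (by norm_num) (by positivity),
          Real.logb_self_eq_one (by norm_num), Real.logb_pow, hlog] at a4
        show g' ω ≤ f ω - (2 * m * Z.c * (S.F k).n - m)
        have a5 : (m : ℝ) * (1 + ((2 : ℕ) : ℝ) * -(Z.c * (S.F k).n)) = -(2 * m * Z.c * (S.F k).n - m) := by
          push_cast; ring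
        rw [a5] at a4
        linarith) (by
        intro ω hω
        have a1 := h1 _ ((y k).l.p.supp ω hω) _ (hcy ω hω)
        rw [hn'] at a1
        exact a1) (by
        intro ω hω
        exact logGG_nonneg _ (hcx ω hω).pdM _)
    rw [← e1, ← e2] at h5
    rw [hn']
    have hpb := (y k).l.T.pb_nonneg (fun ω => ¬ Cpd ((gau s D).cp k) (Z.zfm y k ω))
    set PB := (y k).l.T.pb (fun ω => ¬ Cpd ((gau s D).cp k) (Z.zfm y k ω)) with hPB
    have habs : |2 * m * Z.c * (S.F k).n - m| ≤ (2 * m * Z.c + 1) * (S.F k).n := by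
      have hc := Z.h0
      have hm : (0 : ℝ) ≤ m := Nat.cast_nonneg m
      have hmc : 0 ≤ 2 * m * Z.c * (S.F k).n := by positivity
      rw [abs_le]
      constructor <;> nlinarith
    have h6 : (C * (Z.e * (S.F k).n) + |2 * m * Z.c * (S.F k).n - m|) * PB ≤
        ((C * Z.e + (2 * m * Z.c + 1)) * PB) * (S.F k).n := by
      have := mul_le_mul_of_nonneg_right habs hpb
      nlinarith
    have h7 : Z.e * (lgd Z.sys D y k / (Z.e * (S.F k).n)) = lgd Z.sys D y k / (S.F k).n := by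
      have := Z.e_pos
      field_simp
    rw [h7, div_le_iff₀ hn]
    have h8 : (lgd s D x k / (S.F k).n - 2 * m * Z.c + m / (S.F k).n + (C * Z.e + (2 * m * Z.c + 1)) * PB) *
        (S.F k).n = lgd s D x k - 2 * m * Z.c * (S.F k).n + m + ((C * Z.e + (2 * m * Z.c + 1)) * PB) * (S.F k).n := by
      field_simp
    rw [h8]
    linarith)
  linarith

/-- volume of the window `0` of the zoom, and of the window `c` of the system -/
theorem lvol_zoom (hD : 1 ≤ D) : 2 * m * Z.c + Z.e * lvol Z.sys D 0 ≤ lvolP g s D Z.c := by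
  obtain ⟨y, hy, -⟩ := exists_can Z.sys D 0
  rw [← lvol_eq Z.sys hy]
  exact Z.lgd_zoom hD hy.1

end ZF

end

end Pool.Agent.Helper3.SG
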