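import Pool.Agent.Helper3.SG.Def

/-! The lemma SPEED for forms on labels of two arbitrary pairs of informations; SPEED for factors. -/

set_option autoImplicit false

namespace Pool.Agent.Helper3.SG

open Finset Filter Topology Matrix Pool.Agent.Helper69.RK Pool.Agent.Helper31.EC Pool.Agent.Helper40.EL
open Pool.Agent.Helper31.EC.Sp
open Pool.Agent.Helper95.LF Pool.Agent.Helper3.LF Pool.Agent.Helper48.NS Pool.Agent.Helper89.LX
open Pool.Agent.Helper3.PR
open Pool.Agent.Helper59.LF (ladd fadd DM_ladd nul_card h_label speed_core tfl tfl_le tfl_eq pnt alg)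

noncomputable section

variable {S : Sp} {m q : ℕ}

/-- REMEZ for `phi` of forms on labels, from the entropy of the height -/
theorem win_phi' {s : Sys S m} {D : ℕ} {c : ℝ} (h0 : 0 ≤ c) (h1 : c < 1) {l : Lab S}
    (hW : 1 - c ≤ ul (l.sp.rt (fun k => Setoid.ker ((l.pj.vv s.t).cellv 1 k)) (wB s c l)))
    (A : ∀ k, (l k).T.Ω → Matrix (Mon (m + 1) D) (Mon (m + 1) D) ℝ)
    (hA : ∀ᶠ k in UF, ∀ ω, (l k).T.μ ω ≠ 0 → PdM (A k ω))
    (hV : ∀ᶠ k in UF, ∀ ω ω', (l k).T.μ ω ≠ 0 → (l k).T.μ ω' ≠ 0 → (l k).V ω ω' → (l k).T.Z ω ω' → A k ω = A k ω')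
    (b : ℝ) (hb : 0 ≤ b) (L : ℕ → ℝ) (hL : S.Sub L) :
    ∃ K' : ℕ → ℝ, S.Sub K' ∧ Sp.Typ (S := l.sp) (fun k (ω : (l k).T.Ω) =>
      ∀ r, |r - s.t.v k ((l k).p.π ω) 0| ≤ L k * S.dl (c - b) k →
      phi (S.dl 1 k) (A k ω) (pl (s.a.v k ((l k).p.π ω)) (s.x.v k ((l k).p.π ω)) r) ≤
        K' k * 2 ^ ((2 * D : ℕ) * b * (S.F k).n) * sph s D k ((l k).p.π ω) (A k ω)) := by
  obtain ⟨K', hK', hT⟩ := phi_rem (S := l.sp) (l.pj.vv s.a) (l.pj.vv s.x) (l.pj.vv s.t) c 1 h0 h1 (wB s c l) A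
    hA (fun _ => 1) (l.sp.Sub_const zero_le_one) (by
      filter_upwards [hV] with k hk ω ω' a a' e z
      exact ⟨hk ω' ω a' a e.1 z, wB_close k ω ω' e⟩) hW b hb L ((sp_Sub l).mpr hL)
  refine ⟨K', (sp_Sub l).mp hK', ?_⟩
  refine squeeze_zero' (Eventually.of_forall fun k => Sp.mass_res_nonneg (S := l.sp) k _) ?_ hT
  refine Eventually.of_forall fun k => ?_
  apply mass_res_mono _ _ _ (l.sp.F k).nn
  intro ω hω hE hcon
  apply hE
  intro r hr
  have h2 := hcon r (by rw [Pool.Agent.Helper3.LF.sp_dl]; exact hr)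
  rw [Pool.Agent.Helper3.LF.sp_dl, Pool.Agent.Helper3.LF.sp_n] at h2
  exact h2

/-- the value of the row polynomial, rounded, is a label of the smaller window -/
theorem speed_U' {s : Sys S m} {D : ℕ} {c c' : ℝ} (h0 : 0 ≤ c) (hc1 : c < 1) (hcc : c ≤ c') (h1 : c' ≤ 1)
    {A B A' B' : Part S} {x : ∀ k, FD (S.F k) (Mon (m + 1) D)} (hx : (gau s D).Ad A B x)
    (hW : 1 - c ≤ ul ((lb x).sp.rt (fun k => Setoid.ker (((lb x).pj.vv s.t).cellv 1 k)) (wB s c (lb x))))
    (hl : (lb x).DM A' B') (hA' : ∀ k, cA s c' k ≤ A' k) (hB' : ∀ k, cB s k ≤ B' k) :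
    ∃ (U : ∀ k, (x k).l.T.Ω → ℤ) (K5 : ℕ → ℝ), S.Sub K5 ∧
      (ladd (ladd (lb x) (rowW s x (c' - c))) (fun k => Setoid.ker (U k))).DM A' B' ∧
      Sp.Typ (S := (lb x).sp) (fun k (ω : (x k).l.T.Ω) => rowy s x (c' - c) k ω ≤ rowr s x (c' - c) k ω ∧
        rowr s x (c' - c) k ω ≤ 2 * rowy s x (c' - c) k ω ∧
        ph D (pol (shf (rowv s x k ω) (rowr s x (c' - c) k ω * U k ω))) (S.dl 1 k) (ptf s k ((x k).l.p.π ω)) ≤
          K5 k * rowr s x (c' - c) k ω ^ 2) := by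
  have hl1 : (ladd (lb x) (rowW s x (c' - c))).DM A' B' :=
    DM_free hl (rowi s x) (rowe s x (c' - c)) 2 (by norm_num)
      (Eventually.of_forall fun k ω _ => rowe_le s x (c' - c) k ω)
  have hPd : ∀ᶠ k in UF, ∀ ω, (x k).l.T.μ ω ≠ 0 → PdM ((x k).g ω) := by
    filter_upwards [hx 1 one_pos] with k hk ω hω using (hk.2.2.1 ω hω).1.pdM
  obtain ⟨K1, hK1, hT1⟩ := ad_sub hx
  obtain ⟨K2, hK2, hT2⟩ := win_phi' (D := D) h0 hc1 hW (fun k ω => (x k).g ω) hPd
    (Eventually.of_forall fun k ω ω' a a' b b' => ((x k).meas ω ω' a a' b b').1) 0 le_rfl (fun _ => 1)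
    (S.Sub_const zero_le_one)
  obtain ⟨Kt, hKt, ht⟩ := s.t.bd
  -- constants
  have hc0 := nn_one (m + 1) D
  have hc2 := Cm_one (m + 1) D
  have hc3 := Cu_one D
  set R : ℕ → ℝ := fun k => 1 + Kt k with hR
  have hRs : S.Sub R := (S.Sub_const zero_le_one).add hKt
  set Ka : ℕ → ℝ := fun k => Cm (m + 1) D * (K1 k + 1) with hKa
  set Kb : ℕ → ℝ := fun k => R k * (Cu D * Cm (m + 1) D * R k ^ D) with hKb
  set Kc : ℕ → ℝ := fun k => Cu D * (Cm (m + 1) D * (K2 k * K1 k + 1)) with hKc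
  have hKas : S.Sub Ka := (S.Sub_const (by positivity)).mul (hK1.add (S.Sub_const zero_le_one))
  have hKbs : S.Sub Kb := hRs.mul ((S.Sub_const (by positivity)).mul (Sub_powN hRs D))
  have hKcs : S.Sub Kc := (S.Sub_const (by positivity)).mul ((S.Sub_const (by positivity)).mul
    ((hK2.mul hK1).add (S.Sub_const zero_le_one)))
  set K : ℕ → ℝ := fun k => Ka k + Kb k + Kc k with hK
  have hKs : S.Sub K := (hKas.add hKbs).add hKcs
  have hM : S.Sub (fun k => ((m + 1 : ℕ) : ℝ) * nn (m + 1) D * Cm (m + 1) D ^ 2 * K1 k) :=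
    (S.Sub_const (by positivity)).mul hK1
  -- the typical event
  set E : ∀ k, (x k).l.T.Ω → Prop := fun k ω => sph s D k ((x k).l.p.π ω) ((x k).g ω) ≤ K1 k ∧
    ∀ r, |r - s.t.v k ((x k).l.p.π ω) 0| ≤ 1 * S.dl (c - 0) k →
      phi (S.dl 1 k) ((x k).g ω) (pl (s.a.v k ((x k).l.p.π ω)) (s.x.v k ((x k).l.p.π ω)) r) ≤
        K2 k * 2 ^ ((2 * D : ℕ) * 0 * (S.F k).n) * sph s D k ((x k).l.p.π ω) ((x k).g ω) with hE
  have hET : Sp.Typ (S := (lb x).sp) E := typ_and hT1 hT2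
  have hfine : ∀ᶠ k in UF, ∀ ω, (x k).l.T.μ ω ≠ 0 → E k ω →
      rowy s x (c' - c) k ω ≤ rowr s x (c' - c) k ω ∧ rowr s x (c' - c) k ω ≤ 2 * rowy s x (c' - c) k ω := by
    filter_upwards [hPd, hM.eventually_le one_pos] with k b1 b2 ω hω hEω
    exact rowr_eq s x (c' - c) (by linarith) (by linarith) k ω (b1 ω hω) (K1 k) hEω.1 (by linarith)
  have hbnd : ∀ᶠ k in UF, ∀ ω, (x k).l.T.μ ω ≠ 0 → E k ω →
      |MvPolynomial.eval (pl (s.a.v k ((x k).l.p.π ω)) (s.x.v k ((x k).l.p.π ω)) (s.t.v k ((x k).l.p.π ω) 0))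
        (pol (rowv s x k ω))| ≤ K k ∧
      (∀ i, ∀ y : Fin (m + 1) → ℝ,
        (∀ j, |y j - pl (s.a.v k ((x k).l.p.π ω)) (s.x.v k ((x k).l.p.π ω)) (s.t.v k ((x k).l.p.π ω) 0) j| ≤
          R k * S.dl 1 k) → R k * S.dl 1 k * |MvPolynomial.eval y (MvPolynomial.pderiv i (pol (rowv s x k ω)))| ≤
            K k * rowr s x (c' - c) k ω) ∧
      (∀ u, |u - s.t.v k ((x k).l.p.π ω) 0| ≤ S.dl c' k →
        |(Polynomial.derivative (alg (s.a.v k ((x k).l.p.π ω)) (s.x.v k ((x k).l.p.π ω))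
          (pol (rowv s x k ω)))).eval u| * S.dl c' k ≤ K k * rowr s x (c' - c) k ω) := by
    filter_upwards [hfine, hPd, hK1.1, hK2.1, hKt.1] with k b1 b2 b3 b4 b5 ω hω hEω
    obtain ⟨f1, f2⟩ := b1 ω hω hEω
    have hA := b2 ω hω
    have hd := S.dl_pos 1 k
    have hR1 : 1 ≤ R k := by
      show 1 ≤ 1 + Kt k
      linarith
    have hKa0 : 0 ≤ Ka k := mul_nonneg (by linarith) (by linarith)
    have hKb0 : 0 ≤ Kb k := by
      have : 0 ≤ R k := by linarith
      positivity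
    have hKc0 : 0 ≤ Kc k := by
      have : 0 ≤ K2 k * K1 k := mul_nonneg b4 b3
      positivity
    have hr0 : 0 ≤ rowr s x (c' - c) k ω := (rowr_pos s x (c' - c) k ω).le
    have hph0 : 0 ≤ phi (S.dl 1 k) ((x k).g ω) (ptf s k ((x k).l.p.π ω)) :=
      phi_nonneg _ (fun y => hA.nonneg y) _
    refine ⟨?_, ?_, ?_⟩
    · have g1 := val_at (D := D) (pol (rowv s x k ω)) (pol_deg _) (S.dl 1 k) hd (ptf s k ((x k).l.p.π ω))
      have g2 : ph D (pol (rowv s x k ω)) (S.dl 1 k) (ptf s k ((x k).l.p.π ω)) ≤ K1 k :=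
        (rws_ph_le hA _ _ _).trans hEω.1
      have g3 := (Real.sqrt_le_sqrt g2).trans (sqrt_le_add_one _ b3)
      have g4 : Cm (m + 1) D * Real.sqrt (ph D (pol (rowv s x k ω)) (S.dl 1 k) (ptf s k ((x k).l.p.π ω))) ≤ Ka k :=
        mul_le_mul_of_nonneg_left g3 (by linarith)
      have g5 : Ka k ≤ K k := by
        show Ka k ≤ Ka k + Kb k + Kc k
        linarith
      exact (g1.trans g4).trans g5
    · intro i y hy
      have g1 := grad_near (D := D) (pol (rowv s x k ω)) (pol_deg _) (S.dl 1 k) (R k) hd hR1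
        (ptf s k ((x k).l.p.π ω)) y hy i
      have g2 : Real.sqrt (rowG s x k ω) * S.dl 1 k ≤ rowr s x (c' - c) k ω := (le_max_right _ _).trans f1
      have g3 : R k * S.dl 1 k * |MvPolynomial.eval y (MvPolynomial.pderiv i (pol (rowv s x k ω)))| ≤
          R k * S.dl 1 k * (Cu D * Cm (m + 1) D * R k ^ D * Real.sqrt (rowG s x k ω)) :=
        mul_le_mul_of_nonneg_left g1 (by positivity)
      have g4 : R k * S.dl 1 k * (Cu D * Cm (m + 1) D * R k ^ D * Real.sqrt (rowG s x k ω)) =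
          Kb k * (Real.sqrt (rowG s x k ω) * S.dl 1 k) := by
        simp only [hKb]
        ring
      have g5 : Kb k * (Real.sqrt (rowG s x k ω) * S.dl 1 k) ≤ Kb k * rowr s x (c' - c) k ω :=
        mul_le_mul_of_nonneg_left g2 hKb0
      have g6 : Kb k * rowr s x (c' - c) k ω ≤ K k * rowr s x (c' - c) k ω := by
        apply mul_le_mul_of_nonneg_right _ hr0
        show Kb k ≤ Ka k + Kb k + Kc k
        linarith
      rw [g4] at g3
      exact (g3.trans g5).trans g6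
    · intro u hu
      have hdd : S.dl c' k = S.dl c k * S.dl (c' - c) k := by
        rw [← S.dl_add]
        congr 1; ring
      have hδ1 : S.dl (c' - c) k ≤ 1 := by
        have := S.dl_anti (show (0 : ℝ) ≤ c' - c by linarith) k
        rwa [S.dl_zero] at this
      have g1 : ∀ r, |r - s.t.v k ((x k).l.p.π ω) 0| ≤ S.dl c k →
          |MvPolynomial.eval (pl (s.a.v k ((x k).l.p.π ω)) (s.x.v k ((x k).l.p.π ω)) r)
            (pol (rowv s x k ω))| ≤ Cm (m + 1) D * (K2 k * K1 k + 1) := by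
        intro r hr
        have e1 := hEω.2 r (by rw [one_mul, sub_zero]; exact hr)
        rw [mul_zero, zero_mul, Real.rpow_zero, mul_one] at e1
        have e2 := val_at (D := D) (pol (rowv s x k ω)) (pol_deg _) (S.dl 1 k) hd
          (pl (s.a.v k ((x k).l.p.π ω)) (s.x.v k ((x k).l.p.π ω)) r)
        have e3 : ph D (pol (rowv s x k ω)) (S.dl 1 k)
            (pl (s.a.v k ((x k).l.p.π ω)) (s.x.v k ((x k).l.p.π ω)) r) ≤ K2 k * K1 k :=
          ((rws_ph_le hA _ _ _).trans e1).trans (mul_le_mul_of_nonneg_left hEω.1 b4)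
        have e4 := (Real.sqrt_le_sqrt e3).trans (sqrt_le_add_one _ (mul_nonneg b4 b3))
        exact e2.trans (mul_le_mul_of_nonneg_left e4 (by linarith))
      have g2 := der_line (D := D) (pol (rowv s x k ω)) (pol_deg _) (s.a.v k ((x k).l.p.π ω))
        (s.x.v k ((x k).l.p.π ω)) (s.t.v k ((x k).l.p.π ω) 0) (S.dl c k) (S.dl (c' - c) k)
        (Cm (m + 1) D * (K2 k * K1 k + 1)) (S.dl_pos c k) (S.dl_pos _ k).le hδ1 g1 u (by rw [← hdd]; exact hu)
      rw [← hdd] at g2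
      have g3 : S.dl (c' - c) k ≤ rowr s x (c' - c) k ω := (le_max_left _ _).trans f1
      have g4 : Cu D * (Cm (m + 1) D * (K2 k * K1 k + 1)) * S.dl (c' - c) k ≤ Kc k * rowr s x (c' - c) k ω :=
        mul_le_mul_of_nonneg_left g3 hKc0
      have g6 : Kc k * rowr s x (c' - c) k ω ≤ K k * rowr s x (c' - c) k ω := by
        apply mul_le_mul_of_nonneg_right _ hr0
        show Kc k ≤ Ka k + Kb k + Kc k
        linarith
      exact (g2.trans g4).trans g6
  obtain ⟨U, hU1, -, hU3⟩ := speed_core s.a s.x s.t c' (ladd (lb x) (rowW s x (c' - c))) hl1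
    (Eventually.of_forall fun k => le_trans (fc_mono (by
      intro ω ω' h
      obtain ⟨⟨h1, h2⟩, h3⟩ := h
      show (s.a.cellv 1 k ω, s.x.cellv 1 k ω, s.t.cellv c' k ω) = (s.a.cellv 1 k ω', s.x.cellv 1 k ω', s.t.cellv c' k ω')
      have e1 : s.a.cellv 1 k ω = s.a.cellv 1 k ω' := h1
      have e2 : s.x.cellv 1 k ω = s.x.cellv 1 k ω' := h2
      have e3 : s.t.cellv c' k ω = s.t.cellv c' k ω' := h3
      rw [e1, e2, e3])) (hA' k))
    (Eventually.of_forall fun k => le_trans (fc_mono (by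
      intro ω ω' h
      obtain ⟨h1, h2⟩ := h
      show ((Sp.VV.pt s.a s.x s.t).cellv 1 k ω, s.t.cellv 1 k ω) = ((Sp.VV.pt s.a s.x s.t).cellv 1 k ω', s.t.cellv 1 k ω')
      have e1 : (Sp.VV.pt s.a s.x s.t).cellv 1 k ω = (Sp.VV.pt s.a s.x s.t).cellv 1 k ω' := h1
      have e2 : s.t.cellv 1 k ω = s.t.cellv 1 k ω' := h2
      rw [e1, e2])) (hB' k))
    (fun k ω => pol (rowv s x k ω)) (fun k ω => rowr s x (c' - c) k ω)
    (Eventually.of_forall fun k ω ω' a a' b b' => by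
      obtain ⟨b1, b2⟩ := b
      obtain ⟨e1, e2⟩ := rowW_eq s x (c' - c) k ω ω' a a' b1 b' b2
      exact ⟨congrArg pol e1, e2⟩) 3 (by norm_num)
    ((rowr_ge s x (c' - c)).mono fun k hk ω _ => hk ω) E hET K R hKs
    (by
      filter_upwards [ht] with k hk ω hω
      have := hk ω hω 0
      show 1 + |s.t.v k ω 0| ≤ 1 + Kt k
      linarith)
    hbnd
  refine ⟨U, fun k => nn (m + 1) D * (1 + ((m + 1 : ℕ) : ℝ) * K k) ^ 2, ?_, hU1, ?_⟩
  · exact (S.Sub_const (by linarith)).mul (Sub_powN ((S.Sub_const zero_le_one).add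
      ((S.Sub_const (Nat.cast_nonneg _)).mul hKs)) 2)
  · refine typ_mono hET ?_
    filter_upwards [hfine, hbnd, hU3, hKs.1, hKt.1] with k b1 b2 b3 b4 b5 ω hω hEω
    obtain ⟨f1, f2⟩ := b1 ω hω hEω
    refine ⟨f1, f2, ?_⟩
    have hR1 : 1 ≤ R k := by
      show 1 ≤ 1 + Kt k
      linarith
    have g1 := ph_shf_le (rowv s x k ω) (rowr s x (c' - c) k ω * U k ω) (S.dl 1 k) (R k)
      (rowr s x (c' - c) k ω) (K k) (S.dl_pos 1 k) hR1 (rowr_pos s x (c' - c) k ω).le b4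
      (ptf s k ((x k).l.p.π ω)) (b3 ω hω hEω) (b2 ω hω hEω).2.1
    refine g1.trans (le_of_eq ?_)
    ring

/-- LEMMA SPEED, general windows -/
theorem speed_main' {s : Sys S m} {D : ℕ} {c c' σ : ℝ} (h0 : 0 ≤ c) (hc1 : c < 1) (hcc : c ≤ c') (h1 : c' ≤ 1)
    {A B A' B' : Part S} {x : ∀ k, FD (S.F k) (Mon (m + 1) D)} (hx : (gau s D).Ad A B x)
    (hW : 1 - c ≤ ul ((lb x).sp.rt (fun k => Setoid.ker (((lb x).pj.vv s.t).cellv 1 k)) (wB s c (lb x))))
    (hl : (lb x).DM A' B') (hA' : ∀ k, cA s c' k ≤ A' k) (hB' : ∀ k, cB s k ≤ B' k)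
    (hσ : ∀ e : ℝ, 0 < e → Tendsto (fun k => (x k).l.T.pb (fun ω =>
      ¬ 2 ^ (2 * (σ - e) * (S.F k).n) ≤ sga s D k ((x k).l.p.π ω) ((x k).g ω))) UF (𝓝 0)) :
    ∃ y : ∀ k, FD (S.F k) (Mon (m + 1) D), (gau s D).Ad A' B' y ∧
      ∀ e : ℝ, 0 < e → Tendsto (fun k => (y k).l.T.pb (fun ω =>
        ¬ 2 ^ (2 * (min 1 (σ + (c' - c)) - e) * (S.F k).n) ≤ sga s D k ((y k).l.p.π ω) ((y k).g ω))) UF (𝓝 0) := by
  obtain ⟨U, K5, hK5, hDM, hT⟩ := speed_U' h0 hc1 hcc h1 hx hW hl hA' hB'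
  have hPd : ∀ᶠ k in UF, ∀ ω, (x k).l.T.μ ω ≠ 0 → PdM ((x k).g ω) := by
    filter_upwards [hx 1 one_pos] with k hk ω hω using (hk.2.2.1 ω hω).1.pdM
  obtain ⟨K3, hK3, hK31, hT3⟩ := typ_sub_ge (S := (lb x).sp)
    (fun k (ω : (x k).l.T.Ω) => sga s D k ((x k).l.p.π ω) ((x k).g ω)) (2 * σ) (fun e he => by
      have h2 := hσ (e / 2) (by linarith)
      show Tendsto (fun k => (x k).l.T.pb (fun ω => ¬ 2 ^ ((2 * σ - e) * ((lb x).sp.F k).n) ≤
        sga s D k ((x k).l.p.π ω) ((x k).g ω))) UF (𝓝 0)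
      refine h2.congr fun k => ?_
      congr 1
      funext ω
      rw [sp_n]
      congr 2
      ring_nf)
  have hK3' : S.Sub K3 := (sp_Sub (lb x)).mp hK3
  obtain ⟨K0, hK0, hone⟩ := (gau s D).one
  have hK6 : S.Sub (fun k => K0 k + K5 k) := hK0.add hK5
  -- the size of the new form
  have hphi : ∀ k (ω : (x k).l.T.Ω), ph D (pol (shf (rowv s x k ω) (rowr s x (c' - c) k ω * U k ω))) (S.dl 1 k)
      (ptf s k ((x k).l.p.π ω)) ≤ K5 k * rowr s x (c' - c) k ω ^ 2 → (gau s D).φ k ((x k).l.p.π ω) 1 ≤ K0 k →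
      sph s D k ((x k).l.p.π ω) (spg s x (c' - c) U k ω) ≤ K0 k + K5 k := by
    intro k ω g1 g2
    have hr := rowr_pos s x (c' - c) k ω
    unfold sph spg
    rw [nfm_phi]
    have g3 : (rowr s x (c' - c) k ω ^ 2)⁻¹ * ph D (pol (shf (rowv s x k ω) (rowr s x (c' - c) k ω * U k ω)))
        (S.dl 1 k) (ptf s k ((x k).l.p.π ω)) ≤ K5 k := by
      rw [inv_mul_le_iff₀ (by positivity)]
      linarith
    exact add_le_add g2 g3
  have hcap : ∀ᶠ k in UF, ∀ ω, (x k).l.T.μ ω ≠ 0 →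
      sph s D k ((x k).l.p.π ω) (spg s x (c' - c) U k ω) ≤ K0 k + K5 k →
      Cpd ((gau s D).cp k) (spg s x (c' - c) U k ω) := by
    filter_upwards [(gau s D).cap, hK6.eventually_le one_pos] with k b1 b2 ω hω g1
    have hr := rowr_pos s x (c' - c) k ω
    have hw : 0 ≤ (rowr s x (c' - c) k ω ^ 2)⁻¹ := by positivity
    have g2 : PdM (spg s x (c' - c) U k ω) := pdM_of_one_le (nfm_symm _ _) (nfm_one_le hw _)
    refine ⟨nfm_symm _ _, nfm_one_le hw _, fun y => ?_⟩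
    refine (b1 _ ((x k).l.p.supp ω hω) _ g2 y).trans ?_
    apply mul_le_mul_of_nonneg_right _ (dot_self_nonneg y)
    unfold Gau.cp
    rw [add_mul, Real.rpow_add (by norm_num)]
    apply mul_le_mul_of_nonneg_left _ (by positivity)
    have g3 : (gau s D).φ k ((x k).l.p.π ω) (spg s x (c' - c) U k ω) ≤ K0 k + K5 k := g1
    linarith
  refine ⟨spx s x (c' - c) U, ?_, ?_⟩
  · apply ad_mk (Φ := gau s D) (spx s x (c' - c) U) hDM (fun k => rfl)
      (Eventually.of_forall fun k ω _ => capd_Cpd ((gau s D).one_le_cp k) _) (fun k => K0 k + K5 k) hK6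
    refine typ_mono (S := (lb x).sp) hT ?_
    filter_upwards [hone, hK5.1] with k b1 b2 ω hω g1
    have g2 := b1 _ ((x k).l.p.supp ω hω)
    show (gau s D).φ k ((x k).l.p.π ω) (capd ((gau s D).cp k) (spg s x (c' - c) U k ω)) ≤ K0 k + K5 k
    unfold capd
    split_ifs with h3
    · exact hphi k ω g1.2.2 g2
    · linarith
  · -- the size of the gradient
    have hfin : Sp.Typ (S := (lb x).sp) (fun k (ω : (x k).l.T.Ω) =>
        2 ^ (2 * min 1 (σ + (c' - c)) * ((lb x).sp.F k).n) ≤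
          (4 * Fintype.card (Mon (m + 1) D) * K3 k) * sga s D k ((x k).l.p.π ω)
            (capd ((gau s D).cp k) (spg s x (c' - c) U k ω))) := by
      refine typ_mono (typ_and hT hT3) ?_
      filter_upwards [hone, hPd, hcap] with k b1 b2 b3 ω hω g1
      obtain ⟨⟨f1, f2, f3⟩, f4⟩ := g1
      have g2 := b1 _ ((x k).l.p.supp ω hω)
      have g3 := b3 ω hω (hphi k ω f3 g2)
      rw [capd_eq g3, sp_n]
      rw [sp_n] at f4
      have hr := rowr_pos s x (c' - c) k ω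
      have hn := (S.F k).pos
      have hG := rowG_nonneg s x k ω
      have hcd : (1 : ℝ) ≤ Fintype.card (Mon (m + 1) D) := by
        have : 0 < Fintype.card (Mon (m + 1) D) := Fintype.card_pos
        exact_mod_cast this
      have g4 : sga s D k ((x k).l.p.π ω) ((x k).g ω) ≤ Fintype.card (Mon (m + 1) D) * rowG s x k ω :=
        mrow_spec (b2 ω hω) _ _
      have g5 : (rowr s x (c' - c) k ω ^ 2)⁻¹ * rowG s x k ω ≤
          sga s D k ((x k).l.p.π ω) (spg s x (c' - c) U k ω) := by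
        have g6 := nfm_gam (r := S.dl 1 k) (w := (rowr s x (c' - c) k ω ^ 2)⁻¹)
          (shf (rowv s x k ω) (rowr s x (c' - c) k ω * U k ω)) (ptf s k ((x k).l.p.π ω))
        rw [ga_shf] at g6
        exact g6
      have hK31' := hK31 k
      have g7 : (2 : ℝ) ^ (2 * σ * (S.F k).n) ≤ K3 k * (Fintype.card (Mon (m + 1) D) * rowG s x k ω) :=
        f4.trans (mul_le_mul_of_nonneg_left g4 (by linarith))
      -- the main comparison
      have g8 : (2 : ℝ) ^ (2 * min 1 (σ + (c' - c)) * (S.F k).n) * rowr s x (c' - c) k ω ^ 2 ≤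
          (4 * Fintype.card (Mon (m + 1) D) * K3 k) * rowG s x k ω := by
        have hmin1 : min 1 (σ + (c' - c)) ≤ 1 := min_le_left _ _
        have hmin2 : min 1 (σ + (c' - c)) ≤ σ + (c' - c) := min_le_right _ _
        rcases le_total (Real.sqrt (rowG s x k ω) * S.dl 1 k) (S.dl (c' - c) k) with hcase | hcase
        · have e1 : rowy s x (c' - c) k ω = S.dl (c' - c) k := max_eq_left hcase
          rw [e1] at f2
          have e2 : rowr s x (c' - c) k ω ^ 2 ≤ (2 * S.dl (c' - c) k) ^ 2 := pow_le_pow_left₀ hr.le f2 2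
          have e3 : (2 : ℝ) ^ (2 * min 1 (σ + (c' - c)) * (S.F k).n) ≤ 2 ^ (2 * (σ + (c' - c)) * (S.F k).n) := by
            apply Real.rpow_le_rpow_of_exponent_le (by norm_num)
            nlinarith
          have e4 : (2 : ℝ) ^ (2 * (σ + (c' - c)) * (S.F k).n) * S.dl (c' - c) k ^ 2 = 2 ^ (2 * σ * (S.F k).n) := by
            unfold Sp.dl
            rw [← Real.rpow_natCast (2 ^ _) 2, ← Real.rpow_mul (by norm_num), ← Real.rpow_add (by norm_num)]
            congr 1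
            push_cast
            ring
          calc (2 : ℝ) ^ (2 * min 1 (σ + (c' - c)) * (S.F k).n) * rowr s x (c' - c) k ω ^ 2
              ≤ 2 ^ (2 * (σ + (c' - c)) * (S.F k).n) * (2 * S.dl (c' - c) k) ^ 2 :=
                mul_le_mul e3 e2 (by positivity) (by positivity)
            _ = 4 * (2 ^ (2 * (σ + (c' - c)) * (S.F k).n) * S.dl (c' - c) k ^ 2) := by ring
            _ = 4 * 2 ^ (2 * σ * (S.F k).n) := by rw [e4]
            _ ≤ 4 * (K3 k * (Fintype.card (Mon (m + 1) D) * rowG s x k ω)) :=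
                mul_le_mul_of_nonneg_left g7 (by norm_num)
            _ = _ := by ring
        · have e1 : rowy s x (c' - c) k ω = Real.sqrt (rowG s x k ω) * S.dl 1 k := max_eq_right hcase
          rw [e1] at f2
          have e2 : rowr s x (c' - c) k ω ^ 2 ≤ (2 * (Real.sqrt (rowG s x k ω) * S.dl 1 k)) ^ 2 :=
            pow_le_pow_left₀ hr.le f2 2
          have e3 : (2 : ℝ) ^ (2 * min 1 (σ + (c' - c)) * (S.F k).n) ≤ 2 ^ (2 * (S.F k).n) := by
            apply Real.rpow_le_rpow_of_exponent_le (by norm_num)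
            nlinarith
          have e4 : (2 : ℝ) ^ (2 * (S.F k).n) * S.dl 1 k ^ 2 = 1 := by
            unfold Sp.dl
            rw [← Real.rpow_natCast (2 ^ _) 2, ← Real.rpow_mul (by norm_num), ← Real.rpow_add (by norm_num)]
            have : 2 * (S.F k).n + -(1 * (S.F k).n) * ((2 : ℕ) : ℝ) = 0 := by push_cast; ring
            rw [this, Real.rpow_zero]
          have e5 : (2 * (Real.sqrt (rowG s x k ω) * S.dl 1 k)) ^ 2 = 4 * (rowG s x k ω * S.dl 1 k ^ 2) := by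
            rw [mul_pow, mul_pow, Real.sq_sqrt hG]
            ring
          rw [e5] at e2
          have e6 : 1 * rowG s x k ω ≤ (Fintype.card (Mon (m + 1) D) * K3 k) * rowG s x k ω := by
            apply mul_le_mul_of_nonneg_right _ hG
            nlinarith
          calc (2 : ℝ) ^ (2 * min 1 (σ + (c' - c)) * (S.F k).n) * rowr s x (c' - c) k ω ^ 2
              ≤ 2 ^ (2 * (S.F k).n) * (4 * (rowG s x k ω * S.dl 1 k ^ 2)) :=
                mul_le_mul e3 e2 (by positivity) (by positivity)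
            _ = 4 * rowG s x k ω * (2 ^ (2 * (S.F k).n) * S.dl 1 k ^ 2) := by ring
            _ = 4 * rowG s x k ω := by rw [e4, mul_one]
            _ ≤ _ := by linarith
      have g9 : (2 : ℝ) ^ (2 * min 1 (σ + (c' - c)) * (S.F k).n) ≤
          (4 * Fintype.card (Mon (m + 1) D) * K3 k) * ((rowr s x (c' - c) k ω ^ 2)⁻¹ * rowG s x k ω) := by
        have e1 : (4 * Fintype.card (Mon (m + 1) D) * K3 k) * ((rowr s x (c' - c) k ω ^ 2)⁻¹ * rowG s x k ω) =
            (4 * Fintype.card (Mon (m + 1) D) * K3 k) * rowG s x k ω / rowr s x (c' - c) k ω ^ 2 := by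
          rw [div_eq_mul_inv]; ring
        rw [e1, le_div_iff₀ (by positivity)]
        exact g8
      refine g9.trans (mul_le_mul_of_nonneg_left g5 ?_)
      have : 0 ≤ K3 k := by linarith
      positivity
    intro e he
    have hKs : (lb x).sp.Sub (fun k => 4 * Fintype.card (Mon (m + 1) D) * K3 k) :=
      ((lb x).sp.Sub_const (by positivity)).mul hK3
    have hfin2 := typ_of_sub_ge hKs (2 * min 1 (σ + (c' - c)))
      (Eventually.of_forall fun k ω _ => gam_nonneg _ (fun y => (capd_Cpd ((gau s D).one_le_cp k)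
        (spg s x (c' - c) U k ω)).psd.2 y) _) hfin (2 * e) (by linarith)
    have hfin3 : Tendsto (fun k => (x k).l.T.pb (fun ω => ¬ 2 ^ ((2 * min 1 (σ + (c' - c)) - 2 * e) *
      ((lb x).sp.F k).n) ≤ sga s D k ((x k).l.p.π ω) (capd ((gau s D).cp k) (spg s x (c' - c) U k ω)))) UF (𝓝 0) :=
      hfin2
    refine hfin3.congr fun k => ?_
    show (x k).l.T.pb _ = (x k).l.T.pb _
    congr 1
    funext ω
    rw [sp_n]
    show (¬ _ ≤ sga s D k ((x k).l.p.π ω) (capd ((gau s D).cp k) (spg s x (c' - c) U k ω))) =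
      (¬ _ ≤ sga s D k ((x k).l.p.π ω) (capd ((gau s D).cp k) (spg s x (c' - c) U k ω)))
    congr 2
    ring_nf

end

end Pool.Agent.Helper3.SG
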